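import Mathlib
import Pool.Agent.W677.MC8

set_option autoImplicit false

/-! # Level curves of an exterior map near a point of the compact set -/

namespace Pool.Agent.Y946.MB

open Complex Metric Set Filter Topology Bornology Pool.Agent.H713R2

/-- every level between `1` and the level of `ψ z₀` is met on the segment from `c` to `ψ z₀` -/
theorem level_exact {K₀ : Set ℂ} {ψ : ℂ → ℂ} (hψ : IsExteriorMap K₀ ψ) {c : ℂ} (hc : c ∈ K₀)
    {z₀ : ℂ} {s : ℝ} (hs : 1 < s) (hs0 : s ≤ ‖z₀‖) :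
    ∃ z : ℂ, ‖z‖ = s ∧ ‖ψ z - c‖ ≤ ‖ψ z₀ - c‖ := by
  have hopen : IsOpen {z : ℂ | 1 < ‖z‖} := isOpen_lt continuous_const continuous_norm
  obtain ⟨R, hR⟩ : ∃ R : ℝ, ∀ z : ℂ, 1 < ‖z‖ → R < ‖z‖ → ‖c‖ + ‖ψ z₀ - c‖ < ‖ψ z‖ := by
    have h1 := hψ.infinity
    have h2 : ∀ᶠ z in cobounded ℂ, ‖ψ z / z - 1‖ < 1 / 2 := by
      have := (tendsto_iff_norm_sub_tendsto_zero.1 h1).eventually (gt_mem_nhds (show (0:ℝ) < 1 / 2 by norm_num))
      exact this
    rw [Filter.HasBasis.eventually_iff (Metric.hasBasis_cobounded_compl_closedBall (0 : ℂ))] at h2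
    obtain ⟨r, -, hr⟩ := h2
    refine ⟨max r (2 * (‖c‖ + ‖ψ z₀ - c‖)), fun z hz1 hz => ?_⟩
    have hz2 : r < ‖z‖ := (le_max_left _ _).trans_lt hz
    have hz3 : 2 * (‖c‖ + ‖ψ z₀ - c‖) < ‖z‖ := (le_max_right _ _).trans_lt hz
    have h3 := @hr z (by
      rw [mem_compl_iff, mem_closedBall_zero_iff, not_le]
      exact hz2)
    have hz0 : z ≠ 0 := by
      intro h
      rw [h, norm_zero] at hz1
      linarith
    have h4 : 1 / 2 ≤ ‖ψ z / z‖ := by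
      have h5 : ‖(1 : ℂ)‖ ≤ ‖ψ z / z‖ + ‖ψ z / z - 1‖ := by
        have := norm_sub_le (ψ z / z) (ψ z / z - 1)
        rwa [sub_sub_cancel] at this
      rw [norm_one] at h5
      linarith
    rw [norm_div, le_div_iff₀ (norm_pos_iff.2 hz0)] at h4
    linarith
  have hK : IsCompact ({z : ℂ | s ≤ ‖z‖} ∩ closedBall 0 R) :=
    (isCompact_closedBall (0 : ℂ) R).inter_left (isClosed_le continuous_const continuous_norm)
  obtain ⟨K, hKdef⟩ : ∃ K, K = {z : ℂ | s ≤ ‖z‖} ∩ closedBall 0 R := ⟨_, rfl⟩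
  rw [← hKdef] at hK
  have hKsub : K ⊆ {z : ℂ | 1 < ‖z‖} := by
    rw [hKdef]
    intro z hz
    exact hs.trans_le hz.1
  have himg : IsClosed (ψ '' K) := (hK.image_of_continuousOn (hψ.diff.continuousOn.mono hKsub)).isClosed
  obtain ⟨w, hw⟩ : ∃ w : ℝ → ℂ, w = fun t : ℝ => c + (t : ℂ) * (ψ z₀ - c) := ⟨_, rfl⟩
  have hwc : Continuous w := by
    rw [hw]
    fun_prop
  have hmemK : ∀ t : ℝ, 0 ≤ t → t ≤ 1 → ∀ z : ℂ, s ≤ ‖z‖ → ψ z = w t → z ∈ K := by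
    intro t ht0 ht1 z hz hzt
    rw [hKdef]
    refine ⟨hz, ?_⟩
    rw [mem_closedBall_zero_iff]
    by_contra hcon
    rw [not_le] at hcon
    have h1 := hR z (hs.trans_le hz) hcon
    rw [hzt, hw] at h1
    have h2 : ‖c + t * (ψ z₀ - c)‖ ≤ ‖c‖ + ‖ψ z₀ - c‖ := by
      refine (norm_add_le _ _).trans ?_
      rw [norm_mul, Complex.norm_real, Real.norm_of_nonneg ht0]
      have := mul_le_of_le_one_left (norm_nonneg (ψ z₀ - c)) ht1
      linarith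
    exact absurd h1 (not_lt.2 h2)
  obtain ⟨S, hS⟩ : ∃ S : Set ℝ, S = Icc 0 1 ∩ w ⁻¹' (ψ '' K) := ⟨_, rfl⟩
  have hScl : IsClosed S := by
    rw [hS]
    exact isClosed_Icc.inter (himg.preimage hwc)
  have hw1 : w 1 = ψ z₀ := by
    rw [hw]
    simp
  have hne : S.Nonempty := by
    refine ⟨1, ?_⟩
    rw [hS]
    exact ⟨⟨zero_le_one, le_rfl⟩, z₀, hmemK 1 zero_le_one le_rfl z₀ hs0 hw1.symm, hw1.symm⟩
  have hbdd : BddBelow S := ⟨0, fun t ht => by rw [hS] at ht; exact ht.1.1⟩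
  obtain ⟨t₀, ht₀⟩ : ∃ t₀, t₀ = sInf S := ⟨_, rfl⟩
  have hmem : t₀ ∈ S := by
    rw [ht₀]
    exact hScl.csInf_mem hne hbdd
  have hmem' := hmem
  rw [hS] at hmem'
  obtain ⟨⟨h0, h1⟩, z₁, hz₁K, hz₁⟩ := hmem'
  have hz₁s : s ≤ ‖z₁‖ := by
    rw [hKdef] at hz₁K
    exact hz₁K.1
  have ht₀pos : 0 < t₀ := by
    rcases h0.lt_or_eq with h | h
    · exact h
    · exfalso
      have h2 : ψ z₁ = c := by
        rw [hz₁, ← h, hw]
        simp
      have h3 : ψ z₁ ∈ K₀ᶜ := by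
        rw [← hψ.image]
        exact ⟨z₁, hs.trans_le hz₁s, rfl⟩
      rw [h2] at h3
      exact h3 hc
  refine ⟨z₁, ?_, ?_⟩
  · by_contra hcon
    have hlt : s < ‖z₁‖ := lt_of_le_of_ne hz₁s (Ne.symm hcon)
    have han : AnalyticAt ℂ ψ z₁ := by
      apply DifferentiableOn.analyticAt hψ.diff
      exact hopen.mem_nhds (hs.trans_le hz₁s)
    rcases han.eventually_constant_or_nhds_le_map_nhds with h | h
    · -- not constant
      have h2 : ∀ᶠ z in 𝓝 z₁, 1 < ‖z‖ := hopen.mem_nhds (hs.trans_le hz₁s)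
      have h3 : ∀ᶠ z in 𝓝 z₁, z = z₁ := by
        filter_upwards [h, h2] with z hz hz'
        exact hψ.inj hz' (hs.trans_le hz₁s) hz
      have h4 : ({z₁} : Set ℂ) ∈ 𝓝 z₁ := h3
      have h5 : (𝓝[≠] z₁) = ⊥ := by
        rw [nhdsWithin, ← empty_mem_iff_bot, mem_inf_principal]
        filter_upwards [h4] with z hz hz'
        exact hz' hz
      exact (NormedField.nhdsNE_neBot z₁).ne h5
    · have h2 : {z : ℂ | s < ‖z‖} ∈ 𝓝 z₁ :=
        (isOpen_lt continuous_const continuous_norm).mem_nhds hlt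
      have h3 : ψ '' {z : ℂ | s < ‖z‖} ∈ 𝓝 (ψ z₁) := h (image_mem_map h2)
      rw [hz₁] at h3
      have h4 : ∀ᶠ t in 𝓝 t₀, w t ∈ ψ '' {z : ℂ | s < ‖z‖} := hwc.continuousAt h3
      have h5 : ∀ᶠ t in 𝓝[<] t₀, w t ∈ ψ '' {z : ℂ | s < ‖z‖} ∧ 0 < t ∧ t < t₀ := by
        filter_upwards [h4.filter_mono nhdsWithin_le_nhds,
          (lt_mem_nhds ht₀pos).filter_mono nhdsWithin_le_nhds, self_mem_nhdsWithin] with t ha hb hc'
        exact ⟨ha, hb, hc'⟩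
      obtain ⟨t, ⟨z, hz, hzt⟩, ht0, htt⟩ := h5.exists
      have h6 : t ∈ S := by
        rw [hS]
        exact ⟨⟨ht0.le, htt.le.trans h1⟩, z,
          hmemK t ht0.le (htt.le.trans h1) z (le_of_lt hz) hzt, hzt⟩
      have h7 : t₀ ≤ t := by
        rw [ht₀]
        exact csInf_le hbdd h6
      linarith
  · rw [hz₁, hw]
    simp only
    rw [add_sub_cancel_left, norm_mul, Complex.norm_real, Real.norm_of_nonneg h0]
    exact mul_le_of_le_one_left (norm_nonneg _) h1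

end Pool.Agent.Y946.MB
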